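import Pool.Agent.H503R3.QCI.Hilb

/-!
The Hilbert function of a complete intersection as a number of lattice points; Hoeffding's bound.
-/

set_option autoImplicit false

open H503R3.QCI (cip)

namespace Pool.Agent.Helper47K9.SM

/-- the number of integer points of the box `∏ [0, e_j)` with coordinate sum `s` -/
def count {m : ℕ} (e : Fin m → ℕ) (s : ℕ) : ℕ :=
  ((Fintype.piFinset fun j => Finset.range (e j)).filter fun a => ∑ j, a j = s).card

lemma coeff_cip {m : ℕ} (e : Fin m → ℕ) (s : ℕ) : (cip e).coeff s = count e s := by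
  classical
  rw [cip, Finset.prod_univ_sum, Polynomial.finsetSum_coeff]
  have h1 : ∀ a ∈ Fintype.piFinset fun j => Finset.range (e j),
      (∏ j, (Polynomial.X : Polynomial ℤ) ^ a j).coeff s = if ∑ j, a j = s then 1 else 0 := by
    intro a _
    rw [Finset.prod_pow_eq_pow_sum, Polynomial.coeff_X_pow]
    simp only [eq_comm]
  rw [Finset.sum_congr rfl h1, Finset.sum_boole, count]

lemma sum_le_of_mem {m : ℕ} {e : Fin m → ℕ} {a : Fin m → ℕ}
    (ha : a ∈ Fintype.piFinset fun j => Finset.range (e j)) : ∑ j, a j ≤ ∑ j, (e j - 1) := by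
  refine Finset.sum_le_sum fun j _ => ?_
  have := Fintype.mem_piFinset.mp ha j
  rw [Finset.mem_range] at this
  omega

lemma le_of_count_pos {m : ℕ} {e : Fin m → ℕ} {s : ℕ} (h : 0 < count e s) :
    s ≤ ∑ j, (e j - 1) := by
  obtain ⟨a, ha⟩ := Finset.card_pos.mp h
  rw [Finset.mem_filter] at ha
  rw [← ha.2]
  exact sum_le_of_mem ha.1

/-- symmetry -/
lemma count_symm {m : ℕ} (e : Fin m → ℕ) {s : ℕ} (hs : s ≤ ∑ j, (e j - 1)) :
    count e s ≤ count e (∑ j, (e j - 1) - s) := by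
  classical
  refine Finset.card_le_card_of_injOn (fun a j => e j - 1 - a j) ?_ ?_
  · intro a ha
    rw [Finset.mem_coe, Finset.mem_filter] at ha
    rw [Finset.mem_coe, Finset.mem_filter]
    have h1 : ∀ j, a j < e j := fun j => Finset.mem_range.mp (Fintype.mem_piFinset.mp ha.1 j)
    refine ⟨Fintype.mem_piFinset.mpr fun j => Finset.mem_range.mpr ?_, ?_⟩
    · have := h1 j
      simp only
      omega
    · have h2 : ∑ j, (e j - 1 - a j) + ∑ j, a j = ∑ j, (e j - 1) := by
        rw [← Finset.sum_add_distrib]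
        refine Finset.sum_congr rfl fun j _ => ?_
        have := h1 j
        omega
      simp only
      omega
  · intro a ha b hb hab
    rw [Finset.mem_coe, Finset.mem_filter] at ha hb
    have h1 : ∀ j, a j < e j := fun j => Finset.mem_range.mp (Fintype.mem_piFinset.mp ha.1 j)
    have h2 : ∀ j, b j < e j := fun j => Finset.mem_range.mp (Fintype.mem_piFinset.mp hb.1 j)
    ext j
    have h3 := congrFun hab j
    have := h1 j
    have := h2 j
    simp only at h3
    omega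

/-- the total number of points -/
lemma sum_count {m : ℕ} (e : Fin m → ℕ) :
    ∑ s ∈ Finset.range (∑ j, (e j - 1) + 1), count e s = ∏ j, e j := by
  classical
  have h1 := Finset.card_eq_sum_card_fiberwise (f := fun a : Fin m → ℕ => ∑ j, a j)
    (s := Fintype.piFinset fun j => Finset.range (e j))
    (t := Finset.range (∑ j, (e j - 1) + 1)) (by
      intro a ha
      have := sum_le_of_mem (Finset.mem_coe.mp ha)
      rw [Finset.mem_coe, Finset.mem_range]
      simp only
      omega)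
  rw [Fintype.card_piFinset] at h1
  simp only [Finset.card_range] at h1
  rw [h1]
  rfl

/-- a large value in the upper half -/
lemma exists_large {m : ℕ} (e : Fin m → ℕ) : ∃ M, ∑ j, (e j - 1) ≤ 2 * M ∧
    ∏ j, e j ≤ (∑ j, (e j - 1) + 1) * count e M := by
  set σ := ∑ j, (e j - 1) with hσ
  have h1 : ∃ s ∈ Finset.range (σ + 1), ∏ j, e j ≤ (σ + 1) * count e s := by
    by_contra hcon
    push Not at hcon
    have h2 := Finset.sum_lt_sum_of_nonempty (s := Finset.range (σ + 1))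
      (f := fun s => (σ + 1) * count e s) (g := fun _ => ∏ j, e j)
      ⟨0, Finset.mem_range.mpr (Nat.succ_pos σ)⟩ (fun s hs => hcon s hs)
    rw [← Finset.mul_sum, hσ, sum_count, Finset.sum_const, Finset.card_range, smul_eq_mul] at h2
    exact lt_irrefl _ h2
  obtain ⟨s, hs, h3⟩ := h1
  rw [Finset.mem_range] at hs
  rcases le_or_gt σ (2 * s) with h | h
  · exact ⟨s, h, h3⟩
  · refine ⟨σ - s, by omega, h3.trans ?_⟩
    exact Nat.mul_le_mul_left _ (count_symm e (by omega))

/-- the moment generating function of a centred uniform variable -/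
lemma mgf_le {d : ℕ} (hd : 1 ≤ d) (t : ℝ) :
    ∑ a ∈ Finset.range d, Real.exp (t * ((a : ℝ) - ((d : ℝ) - 1) / 2)) ≤
      d * Real.exp (t ^ 2 * ((d : ℝ) - 1) ^ 2 / 8) := by
  have h1 : ∑ a ∈ Finset.range d, Real.exp (t * ((a : ℝ) - ((d : ℝ) - 1) / 2)) =
      ∑ a ∈ Finset.range d, Real.exp (-(t * ((a : ℝ) - ((d : ℝ) - 1) / 2))) := by
    rw [← Finset.sum_range_reflect]
    refine Finset.sum_congr rfl fun a ha => ?_
    rw [Finset.mem_range] at ha
    congr 1
    have h2 : ((d - 1 - a : ℕ) : ℝ) = (d : ℝ) - 1 - a := by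
      rw [Nat.cast_sub (by omega), Nat.cast_sub hd, Nat.cast_one]
    rw [h2]
    ring
  have h2 : ∑ a ∈ Finset.range d, Real.exp (t * ((a : ℝ) - ((d : ℝ) - 1) / 2)) =
      ∑ a ∈ Finset.range d, Real.cosh (t * ((a : ℝ) - ((d : ℝ) - 1) / 2)) := by
    have h3 : ∀ a ∈ Finset.range d, Real.cosh (t * ((a : ℝ) - ((d : ℝ) - 1) / 2)) =
        (Real.exp (t * ((a : ℝ) - ((d : ℝ) - 1) / 2)) +
          Real.exp (-(t * ((a : ℝ) - ((d : ℝ) - 1) / 2)))) / 2 := fun a _ => Real.cosh_eq _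
    rw [Finset.sum_congr rfl h3, ← Finset.sum_div, Finset.sum_add_distrib, ← h1]
    ring
  rw [h2]
  have h3 : ∀ a ∈ Finset.range d, Real.cosh (t * ((a : ℝ) - ((d : ℝ) - 1) / 2)) ≤
      Real.exp (t ^ 2 * ((d : ℝ) - 1) ^ 2 / 8) := by
    intro a ha
    rw [Finset.mem_range] at ha
    have ha' : (a : ℝ) + 1 ≤ d := by exact_mod_cast ha
    have ha0 : (0 : ℝ) ≤ a := Nat.cast_nonneg a
    have h5 : Real.cosh (t * ((a : ℝ) - ((d : ℝ) - 1) / 2)) ≤
        Real.cosh (t * (((d : ℝ) - 1) / 2)) := by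
      apply Real.cosh_le_cosh.mpr
      rw [abs_mul, abs_mul]
      refine mul_le_mul_of_nonneg_left ?_ (abs_nonneg t)
      rw [abs_le]
      have h4 : |((d : ℝ) - 1) / 2| = ((d : ℝ) - 1) / 2 := abs_of_nonneg (by linarith)
      rw [h4]
      constructor <;> linarith
    refine h5.trans ((Real.cosh_le_exp_half_sq _).trans (le_of_eq ?_))
    congr 1
    ring
  refine (Finset.sum_le_sum h3).trans (le_of_eq ?_)
  rw [Finset.sum_const, Finset.card_range, nsmul_eq_mul]

/-- **Hoeffding's bound.** -/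
lemma count_le_exp {m : ℕ} {e : Fin m → ℕ} (he : ∀ j, 1 ≤ e j) (s : ℕ) (t : ℝ) :
    (count e s : ℝ) * Real.exp (t * ((s : ℝ) - (∑ j, ((e j : ℝ) - 1)) / 2)) ≤
      (∏ j, (e j : ℝ)) * Real.exp (t ^ 2 * (∑ j, ((e j : ℝ) - 1) ^ 2) / 8) := by
  classical
  have h1 : ∏ j, ∑ a ∈ Finset.range (e j), Real.exp (t * ((a : ℝ) - ((e j : ℝ) - 1) / 2)) ≤
      ∏ j, ((e j : ℝ) * Real.exp (t ^ 2 * ((e j : ℝ) - 1) ^ 2 / 8)) :=
    Finset.prod_le_prod (fun j _ => Finset.sum_nonneg fun a _ => (Real.exp_pos _).le)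
      fun j _ => mgf_le (he j) t
  rw [Finset.prod_univ_sum, Finset.prod_mul_distrib, ← Real.exp_sum] at h1
  have h2 : ∑ j, t ^ 2 * ((e j : ℝ) - 1) ^ 2 / 8 = t ^ 2 * (∑ j, ((e j : ℝ) - 1) ^ 2) / 8 := by
    rw [← Finset.sum_div, ← Finset.mul_sum]
  rw [h2] at h1
  refine le_trans ?_ h1
  rw [count]
  have h3 : ∑ a ∈ (Fintype.piFinset fun j => Finset.range (e j)).filter (fun a => ∑ j, a j = s),
      Real.exp (t * ((s : ℝ) - (∑ j, ((e j : ℝ) - 1)) / 2)) ≤
      ∑ a ∈ Fintype.piFinset fun j => Finset.range (e j),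
        ∏ j, Real.exp (t * ((a j : ℝ) - ((e j : ℝ) - 1) / 2)) := by
    refine le_trans (Finset.sum_le_sum fun a ha => ?_)
      (Finset.sum_le_sum_of_subset_of_nonneg (Finset.filter_subset _ _) fun a _ _ =>
        Finset.prod_nonneg fun j _ => (Real.exp_pos _).le)
    rw [Finset.mem_filter] at ha
    have h4 : t * ((s : ℝ) - (∑ j, ((e j : ℝ) - 1)) / 2) =
        ∑ j, t * ((a j : ℝ) - ((e j : ℝ) - 1) / 2) := by
      rw [← Finset.mul_sum, ← ha.2, Nat.cast_sum, Finset.sum_div, ← Finset.sum_sub_distrib]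
    rw [← Real.exp_sum, h4]
  rwa [Finset.sum_const, nsmul_eq_mul] at h3

end Pool.Agent.Helper47K9.SM
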