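import Pool.Agent.Helper47K9.SM.Count

/-!
The explicit criterion.
-/

set_option autoImplicit false

namespace Pool.Agent.Helper47K9.SM

/-- the degrees with the first one replaced by its difference with `i` -/
def shift {m : ℕ} (d : Fin (m + 1) → ℕ) (i : ℕ) : Fin (m + 1) → ℕ :=
  Fin.cons (α := fun _ => ℕ) (d 0 - i) (fun l => d l.succ)

lemma sum_shift {m : ℕ} {d : Fin (m + 1) → ℕ} {i : ℕ} (hi : i < d 0) :
    ∑ j, (shift d i j - 1) + i = ∑ j, (d j - 1) := by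
  rw [Fin.sum_univ_succ, Fin.sum_univ_succ (f := fun j => d j - 1)]
  simp only [shift, Fin.cons_zero, Fin.cons_succ]
  omega

lemma prod_shift {m : ℕ} (d : Fin (m + 1) → ℕ) (i : ℕ) :
    ∏ j, shift d i j = (d 0 - i) * ∏ l : Fin m, d l.succ := by
  rw [Fin.prod_univ_succ]
  simp only [shift, Fin.cons_zero, Fin.cons_succ]

theorem criterion {m : ℕ} {d : Fin (m + 1) → ℕ} (hd : ∀ j, 1 ≤ d j) {i k : ℕ} (hi : i < d 0)
    (hk : 1 ≤ k) (hik : 2 * (i + k) ≤ ∑ j, (d j - 1) + 2)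
    (hlog : 2 * (∑ j, ((d j : ℝ) - 1) ^ 2) * Real.log (d 0 * ((∑ j, (d j - 1) : ℕ) + 1)) <
      (((∑ j, (d j - 1) : ℕ) : ℝ) + 2 - 2 * ((i : ℝ) + k)) ^ 2) :
    ∃ M, k - 1 ≤ M ∧ count d (i + (k - 1)) < count (shift d i) M := by
  set σ := ∑ j, (d j - 1) with hσ
  set V : ℝ := ∑ j, ((d j : ℝ) - 1) ^ 2 with hV
  have hσR : (σ : ℝ) = ∑ j, ((d j : ℝ) - 1) := by
    rw [hσ, Nat.cast_sum]
    refine Finset.sum_congr rfl fun j _ => ?_
    rw [Nat.cast_sub (hd j), Nat.cast_one]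
  have hd0 : (1 : ℝ) ≤ d 0 := by exact_mod_cast hd 0
  have hσ0 : (0 : ℝ) ≤ σ := Nat.cast_nonneg σ
  have hik' : 2 * ((i : ℝ) + k) ≤ σ + 2 := by exact_mod_cast hik
  have hk' : (1 : ℝ) ≤ k := by exact_mod_cast hk
  have hi0 : (0 : ℝ) ≤ i := Nat.cast_nonneg i
  have hlog0 : 0 ≤ Real.log (d 0 * ((σ : ℝ) + 1)) := Real.log_nonneg (by nlinarith)
  have hV0 : 0 ≤ V := Finset.sum_nonneg fun j _ => sq_nonneg _
  have hpos : 0 < (((σ : ℝ)) + 2 - 2 * ((i : ℝ) + k)) ^ 2 :=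
    lt_of_le_of_lt (by positivity) hlog
  have hx0 : 0 < (σ : ℝ) + 2 - 2 * ((i : ℝ) + k) := by
    rcases lt_or_eq_of_le (by linarith : (0 : ℝ) ≤ (σ : ℝ) + 2 - 2 * ((i : ℝ) + k)) with h | h
    · exact h
    · rw [← h] at hpos
      norm_num at hpos
  have hσ1 : (0 : ℝ) < σ := by linarith
  have hVpos : 0 < V := by
    rcases lt_or_eq_of_le hV0 with h | h
    · exact h
    · exfalso
      have h1 := (Finset.sum_eq_zero_iff_of_nonneg (fun j _ => sq_nonneg _)).mp (h.symm)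
      have h2 : (σ : ℝ) = 0 := by
        rw [hσR]
        refine Finset.sum_eq_zero fun j _ => ?_
        exact pow_eq_zero_iff (two_ne_zero) |>.mp (h1 j (Finset.mem_univ j))
      linarith
  set x : ℝ := ((σ : ℝ) + 2 - 2 * ((i : ℝ) + k)) / 2 with hx
  -- the upper bound
  have hup := count_le_exp hd (i + (k - 1)) (-(4 * x / V))
  rw [← hσR, ← hV] at hup
  have hcast : ((i + (k - 1) : ℕ) : ℝ) = (i : ℝ) + k - 1 := by
    rw [Nat.cast_add, Nat.cast_sub hk, Nat.cast_one]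
    ring
  rw [hcast] at hup
  have e1 : -(4 * x / V) * ((i : ℝ) + k - 1 - σ / 2) = 2 * x ^ 2 / V + 2 * x ^ 2 / V := by
    rw [hx]
    field_simp
    ring
  have e2 : (-(4 * x / V)) ^ 2 * V / 8 = 2 * x ^ 2 / V := by
    field_simp
    ring
  rw [e1, e2, Real.exp_add, ← mul_assoc] at hup
  have hup2 := le_of_mul_le_mul_right hup (Real.exp_pos _)
  have hexp : (d 0 : ℝ) * ((σ : ℝ) + 1) < Real.exp (2 * x ^ 2 / V) := by
    rw [← Real.log_lt_iff_lt_exp (by nlinarith), lt_div_iff₀ hVpos]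
    have h2 : 2 * x ^ 2 = (((σ : ℝ)) + 2 - 2 * ((i : ℝ) + k)) ^ 2 / 2 := by
      rw [hx]; ring
    rw [h2]
    linarith
  -- the lower bound
  obtain ⟨M, hM1, hM2⟩ := exists_large (shift d i)
  have hs := sum_shift (d := d) hi
  rw [← hσ] at hs
  refine ⟨M, by omega, ?_⟩
  rw [prod_shift] at hM2
  have hT1 : 1 ≤ ∏ l : Fin m, d l.succ := Finset.one_le_prod' fun l _ => hd l.succ
  have hMpos : 0 < count (shift d i) M := by
    by_contra hcon
    have h0 : count (shift d i) M = 0 := by omega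
    rw [h0, mul_zero] at hM2
    have h3 : 1 ≤ (d 0 - i) * ∏ l : Fin m, d l.succ := Nat.mul_pos (by omega) hT1
    omega
  rcases Nat.eq_zero_or_pos (count d (i + (k - 1))) with h0 | h0
  · rw [h0]; exact hMpos
  · have h1 : (0 : ℝ) < count d (i + (k - 1)) := by exact_mod_cast h0
    have h2 : (count d (i + (k - 1)) : ℝ) * ((d 0 : ℝ) * ((σ : ℝ) + 1)) < ∏ j, (d j : ℝ) :=
      lt_of_lt_of_le (mul_lt_mul_of_pos_left hexp h1) hup2
    have h3 : count d (i + (k - 1)) * (d 0 * (σ + 1)) < ∏ j, d j := by exact_mod_cast h2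
    rw [Fin.prod_univ_succ] at h3
    have h4 : count d (i + (k - 1)) * (σ + 1) < ∏ l : Fin m, d l.succ := by
      have h5 : d 0 * (count d (i + (k - 1)) * (σ + 1)) < d 0 * ∏ l : Fin m, d l.succ := by
        calc d 0 * (count d (i + (k - 1)) * (σ + 1)) =
            count d (i + (k - 1)) * (d 0 * (σ + 1)) := by ring
          _ < _ := h3
      exact lt_of_mul_lt_mul_left h5 (Nat.zero_le _)
    have h5 : ∏ l : Fin m, d l.succ ≤ (d 0 - i) * ∏ l : Fin m, d l.succ :=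
      Nat.le_mul_of_pos_left _ (by omega)
    have h6 : (∑ j, (shift d i j - 1) + 1) * count (shift d i) M ≤
        (σ + 1) * count (shift d i) M := Nat.mul_le_mul_right _ (by omega)
    have h7 : count d (i + (k - 1)) * (σ + 1) < count (shift d i) M * (σ + 1) := by
      rw [mul_comm (count (shift d i) M)]
      omega
    exact lt_of_mul_lt_mul_right h7 (Nat.zero_le _)

end Pool.Agent.Helper47K9.SM
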