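import Pool.Agent.Helper47K9.SM.Rank
import Pool.Agent.Helper47K9.SM.Expl
import Pool.Agent.Helper47K9.SL.Final

/-!
One linear form for all pairs; surjectivity by duality.
-/

set_option autoImplicit false

open MvPolynomial
open Pool.Agent.W515.SLP (AnnP Deg annP_zero annP_of_gt annP_of_homog lin)
open H503R3.QCI (Homog NZD Reg cip homog_span)
open TH130CI

namespace Pool.Agent.Helper47K9.SM

variable {K : Type*} [Field K]

/-- the condition on the pair `(i, k)` -/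
def Cond {m : ℕ} (d : Fin (m + 1) → ℕ) (i k : ℕ) : Prop :=
  i < d 0 ∧
    ((2 * (i + k) ≤ ∑ j, (d j - 1) + 2 ∧
        2 * (∑ j, ((d j : ℝ) - 1) ^ 2) * Real.log (d 0 * ((∑ j, (d j - 1) : ℕ) + 1)) <
          (((∑ j, (d j - 1) : ℕ) : ℝ) + 2 - 2 * ((i : ℝ) + k)) ^ 2) ∨
      ∃ M, k ≤ M + 1 ∧ count d (i + k - 1) < count (shift d i) M)

lemma Cond.exists {m : ℕ} {d : Fin (m + 1) → ℕ} (hd : ∀ j, 1 ≤ d j) {i k : ℕ} (hk : 1 ≤ k)
    (h : Cond d i k) : ∃ M, k - 1 ≤ M ∧ count d (i + (k - 1)) < count (shift d i) M := by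
  obtain ⟨hi, h1 | ⟨M, hM, h1⟩⟩ := h
  · exact criterion hd hi hk h1.1 h1.2
  · refine ⟨M, by omega, ?_⟩
    rwa [show i + (k - 1) = i + k - 1 by omega]

lemma Cond.bound {m : ℕ} {d : Fin (m + 1) → ℕ} (hd : ∀ j, 1 ≤ d j) {i k : ℕ}
    (h : Cond d i k) : i ≤ d 0 + ∑ j, (d j - 1) + 2 ∧ k ≤ d 0 + ∑ j, (d j - 1) + 2 := by
  refine ⟨by have := h.1; omega, ?_⟩
  rcases Nat.eq_zero_or_pos k with hk | hk
  · omega
  obtain ⟨M, hM, h1⟩ := h.exists hd hk
  have h2 := le_of_count_pos (lt_of_le_of_lt (Nat.zero_le _) h1)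
  have h3 := sum_shift (d := d) h.1
  omega

theorem ci_cond [CharZero K] {m : ℕ} {f : Fin (m + 1) → MvPolynomial (Fin (m + 1)) K}
    {d : Fin (m + 1) → ℕ} (hf : ∀ j, (f j).IsHomogeneous (d j)) (hd : ∀ j, 1 ≤ d j)
    (hmono : Monotone d) (hreg : Reg f) :
    ∃ ℓ : MvPolynomial (Fin (m + 1)) K, ℓ.IsHomogeneous 1 ∧ ∀ i k : ℕ, Cond d i k →
      (∀ g ∈ homogeneousSubmodule (Fin (m + 1)) K i,
        ℓ ^ k * g ∈ Ideal.span (Set.range f) → g ∈ Ideal.span (Set.range f)) ∧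
      (i + k ≤ ∑ j, (d j - 1) →
        ∀ h ∈ homogeneousSubmodule (Fin (m + 1)) K (∑ j, (d j - 1) - i),
        ∃ g ∈ homogeneousSubmodule (Fin (m + 1)) K (∑ j, (d j - 1) - (i + k)),
          h - ℓ ^ k * g ∈ Ideal.span (Set.range f)) := by
  obtain ⟨φ, hφ, hI⟩ := ci_gor hf hd hreg
  obtain ⟨q, hq⟩ := SL.exists_common (I := Ideal.span (Set.range f))
    (d 0 + ∑ j, (d j - 1) + 2) (fun i k => Cond d i k) (fun i k h => h.bound hd)
    (fun i k h => by
      rcases Nat.eq_zero_or_pos k with hk | hk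
      · refine ⟨0, fun g _ hg => ?_⟩
        rwa [hk, pow_zero, one_mul] at hg
      · obtain ⟨M, hM, h1⟩ := h.exists hd hk
        refine exists_inj hf hd hmono hreg h.1.le hM ?_
        rw [coeff_cip]
        change _ < (cip (shift d i)).coeff M
        rw [coeff_cip]
        exact_mod_cast h1)
  refine ⟨lin q, lin_homog q, fun i k hc => ⟨fun g hg h => hq i k hc g hg h, fun hik h hh => ?_⟩⟩
  have hh' : h.IsHomogeneous (∑ j, (d j - 1) - (i + k) + k) := by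
    rw [show ∑ j, (d j - 1) - (i + k) + k = ∑ j, (d j - 1) - i by omega]
    exact hh
  obtain ⟨g, hg, hgh⟩ := surj_of_inj hφ (lin_homog q) (i := ∑ j, (d j - 1) - (i + k)) (k := k)
    (by omega) (fun u hu hlu => by
      rw [show ∑ j, (d j - 1) - (∑ j, (d j - 1) - (i + k) + k) = i by omega] at hu
      have h3 := hq i k hc u hu
      rw [hI] at h3
      exact h3 hlu) hh'
  refine ⟨g, hg, ?_⟩
  rw [hI]
  exact hgh

end Pool.Agent.Helper47K9.SM
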