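import Mathlib

/-!
Any two regular sequences of the same length in an ideal of a noetherian ring are maximal
simultaneously.
-/

set_option autoImplicit false

namespace Pool.Agent.Helper47K9.SM

variable {R : Type*} [CommRing R]

/-- `f` is a nonzerodivisor modulo `I` -/
def NZ (I : Ideal R) (f : R) : Prop := ∀ g, f * g ∈ I → g ∈ I

/-- the partial ideals of a sequence -/
def P (B : Ideal R) (y : ℕ → R) : ℕ → Ideal R
  | 0 => B
  | i + 1 => P B y i ⊔ Ideal.span {y i}

lemma P_sup (B C : Ideal R) (y : ℕ → R) (i : ℕ) : P (B ⊔ C) y i = P B y i ⊔ C := by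
  induction i with
  | zero => rfl
  | succ i ih => rw [P, P, ih, sup_right_comm]

lemma P_mono (B : Ideal R) (y : ℕ → R) {i j : ℕ} (h : i ≤ j) : P B y i ≤ P B y j := by
  induction j, h using Nat.le_induction with
  | base => exact le_rfl
  | succ j _ ih => exact ih.trans le_sup_left

lemma P_le {B J : Ideal R} {y : ℕ → R} {n : ℕ} (hB : B ≤ J) (hy : ∀ i < n, y i ∈ J) :
    P B y n ≤ J := by
  induction n with
  | zero => exact hB
  | succ n ih =>
    rw [P, sup_le_iff]
    exact ⟨ih fun i hi => hy i (by omega),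
      (Ideal.span_singleton_le_iff_mem _).mpr (hy n (Nat.lt_succ_self n))⟩

lemma P_congr {B : Ideal R} {y z : ℕ → R} {n : ℕ} (h : ∀ i < n, y i = z i) :
    P B y n = P B z n := by
  induction n with
  | zero => rfl
  | succ n ih => rw [P, P, ih fun i hi => h i (by omega), h n (Nat.lt_succ_self n)]

/-- swapping two elements -/
lemma NZ.swap {I : Ideal R} {a b : R} (na : NZ I a) (nb : NZ (I ⊔ Ideal.span {a}) b) :
    NZ (I ⊔ Ideal.span {b}) a := by
  intro g hg
  obtain ⟨u, hu, c, hc, hgc⟩ := Submodule.mem_sup.mp hg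
  obtain ⟨v, rfl⟩ := Ideal.mem_span_singleton'.mp hc
  have h2 : v ∈ I ⊔ Ideal.span {a} := by
    apply nb
    have h3 : b * v = a * g - u := by rw [← hgc]; ring
    rw [h3]
    exact Ideal.sub_mem _ (Ideal.mem_sup_right (Ideal.mul_mem_right _ _
      (Ideal.mem_span_singleton_self a))) (Ideal.mem_sup_left hu)
  obtain ⟨u', hu', c', hc', hv⟩ := Submodule.mem_sup.mp h2
  obtain ⟨v', rfl⟩ := Ideal.mem_span_singleton'.mp hc'
  have h3 : g - b * v' ∈ I := by
    apply na
    have h4 : a * (g - b * v') = u + u' * b := by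
      have : a * g = u + v * b := hgc.symm
      rw [mul_sub, this, ← hv]; ring
    rw [h4]
    exact I.add_mem hu (I.mul_mem_right _ hu')
  have h5 : g = (g - b * v') + b * v' := by ring
  rw [h5]
  exact Ideal.add_mem _ (Ideal.mem_sup_left h3) (Ideal.mem_sup_right (Ideal.mul_mem_right _ _
    (Ideal.mem_span_singleton_self b)))

/-- some element outside `I` is killed by `a` modulo `I` -/
def Soc (a I : Ideal R) : Prop := ∃ u, u ∉ I ∧ ∀ x ∈ a, x * u ∈ I

/-- exchanging one element -/
lemma Soc.exchange {a C : Ideal R} {y w : R} (hw : w ∈ a) (ny : NZ C y) (nw : NZ C w)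
    (h : Soc a (C ⊔ Ideal.span {y})) : Soc a (C ⊔ Ideal.span {w}) := by
  obtain ⟨u, hu, hau⟩ := h
  obtain ⟨c, hc, t, ht, hwu⟩ := Submodule.mem_sup.mp (hau w hw)
  obtain ⟨v, rfl⟩ := Ideal.mem_span_singleton'.mp ht
  -- `w * u = c + v * y`
  refine ⟨v, ?_, ?_⟩
  · intro hv
    obtain ⟨c', hc', t', ht', hv'⟩ := Submodule.mem_sup.mp hv
    obtain ⟨s, rfl⟩ := Ideal.mem_span_singleton'.mp ht'
    apply hu
    have h1 : u - s * y ∈ C := by
      apply nw
      have h2 : w * (u - s * y) = c + c' * y := by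
        have : w * u = c + v * y := hwu.symm
        rw [mul_sub, this, ← hv']; ring
      rw [h2]
      exact C.add_mem hc (C.mul_mem_right _ hc')
    have h2 : u = (u - s * y) + s * y := by ring
    rw [h2]
    exact Ideal.add_mem _ (Ideal.mem_sup_left h1) (Ideal.mem_sup_right (Ideal.mul_mem_left _ _
      (Ideal.mem_span_singleton_self y)))
  · intro x hx
    obtain ⟨c', hc', t', ht', hxu⟩ := Submodule.mem_sup.mp (hau x hx)
    obtain ⟨b, rfl⟩ := Ideal.mem_span_singleton'.mp ht'
    -- `x * u = c' + b * y`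
    have h1 : x * v - b * w ∈ C := by
      apply ny
      have h2 : y * (x * v - b * w) = c' * w - x * c := by
        have e1 : w * u = c + v * y := hwu.symm
        have e2 : x * u = c' + b * y := hxu.symm
        have e3 : x * (c + v * y) = w * (c' + b * y) := by
          rw [← e1, ← e2]; ring
        linear_combination e3
      rw [h2]
      exact C.sub_mem (C.mul_mem_right _ hc') (C.mul_mem_left _ hc)
    have h2 : x * v = (x * v - b * w) + b * w := by ring
    rw [h2]
    exact Ideal.add_mem _ (Ideal.mem_sup_left h1) (Ideal.mem_sup_right (Ideal.mul_mem_left _ _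
      (Ideal.mem_span_singleton_self w)))

/-- nonzerodivisors avoid the associated primes -/
lemma nz_iff [IsNoetherianRing R] {I : Ideal R} {w : R} :
    NZ I w ↔ ∀ p ∈ associatedPrimes R (R ⧸ I), w ∉ p := by
  have hun := biUnion_associatedPrimes_eq_zero_divisors R (R ⧸ I)
  constructor
  · intro h p hp hwp
    have h1 : w ∈ ⋃ p ∈ associatedPrimes R (R ⧸ I), (p : Set R) := Set.mem_biUnion hp hwp
    rw [hun] at h1
    obtain ⟨x, hx, hwx⟩ := h1
    obtain ⟨g, rfl⟩ := Ideal.Quotient.mk_surjective x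
    apply hx
    rw [Ideal.Quotient.eq_zero_iff_mem]
    apply h
    have h2 : Ideal.Quotient.mk I (w * g) = 0 := hwx
    exact Ideal.Quotient.eq_zero_iff_mem.mp h2
  · intro h g hg
    by_contra hgI
    have h1 : w ∈ {r : R | ∃ x : R ⧸ I, x ≠ 0 ∧ r • x = 0} := by
      refine ⟨Ideal.Quotient.mk I g, ?_, ?_⟩
      · rwa [Ne, Ideal.Quotient.eq_zero_iff_mem]
      · have h2 : Ideal.Quotient.mk I (w * g) = 0 := Ideal.Quotient.eq_zero_iff_mem.mpr hg
        exact h2
    rw [← hun] at h1
    obtain ⟨p, hp, hwp⟩ := Set.mem_iUnion₂.mp h1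
    exact h p hp hwp

/-- common nonzerodivisors for finitely many ideals -/
lemma exists_nz [IsNoetherianRing R] {a : Ideal R} {ι : Type*} (s : Finset ι) (C : ι → Ideal R)
    (h : ∀ i ∈ s, ∃ y ∈ a, NZ (C i) y) : ∃ w ∈ a, ∀ i ∈ s, NZ (C i) w := by
  classical
  by_contra hcon
  push Not at hcon
  have hfin : (⋃ i ∈ s, associatedPrimes R (R ⧸ C i)).Finite :=
    Set.Finite.biUnion (Finset.finite_toSet s) fun i _ => associatedPrimes.finite R (R ⧸ C i)
  have hsub : (a : Set R) ⊆ ⋃ p ∈ (⋃ i ∈ s, associatedPrimes R (R ⧸ C i)), ((id p : Ideal R) : Set R) := by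
    intro w hw
    obtain ⟨i, hi, hnz⟩ := hcon w hw
    rw [nz_iff] at hnz
    push Not at hnz
    obtain ⟨p, hp, hwp⟩ := hnz
    exact Set.mem_biUnion (Set.mem_biUnion hi hp) hwp
  rw [Ideal.subset_union_prime_finite hfin ⊥ ⊥ (by
    intro p hp _ _
    obtain ⟨i, _, hp⟩ := Set.mem_iUnion₂.mp hp
    exact IsAssociatedPrime.isPrime hp)] at hsub
  obtain ⟨p, hp, hap⟩ := hsub
  obtain ⟨i, hi, hp⟩ := Set.mem_iUnion₂.mp hp
  obtain ⟨y, hy, hnz⟩ := h i hi
  exact (nz_iff.mp hnz) p hp (hap hy)

/-- **Exchange of regular sequences.** -/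
theorem soc_exchange [IsNoetherianRing R] {a : Ideal R} (n : ℕ) : ∀ (B : Ideal R) (y z : ℕ → R),
    (∀ i < n, y i ∈ a) → (∀ i < n, NZ (P B y i) (y i)) →
    (∀ i < n, z i ∈ a) → (∀ i < n, NZ (P B z i) (z i)) →
    Soc a (P B y n) → Soc a (P B z n) := by
  induction n with
  | zero => intro B y z _ _ _ _ h; exact h
  | succ n ih =>
    intro B y z hya hy hza hz h
    obtain ⟨w, hwa, hw⟩ := exists_nz (a := a) (Finset.range (n + 1) ×ˢ (Finset.univ : Finset Bool))
      (fun p => if p.2 then P B y p.1 else P B z p.1) (by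
        rintro ⟨i, b⟩ hi
        rw [Finset.mem_product, Finset.mem_range] at hi
        cases b with
        | true => exact ⟨y i, hya i hi.1, by simpa using hy i hi.1⟩
        | false => exact ⟨z i, hza i hi.1, by simpa using hz i hi.1⟩)
    have hwy : ∀ i < n + 1, NZ (P B y i) w := fun i hi => by
      simpa using hw (i, true) (by simp [hi])
    have hwz : ∀ i < n + 1, NZ (P B z i) w := fun i hi => by
      simpa using hw (i, false) (by simp [hi])
    have h1 : Soc a (P B y n ⊔ Ideal.span {w}) :=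
      Soc.exchange hwa (hy n (Nat.lt_succ_self n)) (hwy n (Nat.lt_succ_self n)) h
    rw [← P_sup] at h1
    have h2 := ih (B ⊔ Ideal.span {w}) y z (fun i hi => hya i (by omega)) (fun i hi => by
        rw [P_sup]
        exact NZ.swap (hy i (by omega)) (hwy (i + 1) (by omega))) (fun i hi => hza i (by omega))
      (fun i hi => by
        rw [P_sup]
        exact NZ.swap (hz i (by omega)) (hwz (i + 1) (by omega))) h1
    rw [P_sup] at h2
    exact Soc.exchange (hza n (Nat.lt_succ_self n)) (hwz n (Nat.lt_succ_self n))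
      (hz n (Nat.lt_succ_self n)) h2

/-- an associated prime of a regular sequence of length `n` contains no regular sequence of length
`n + 1` -/
theorem grade_le [IsNoetherianRing R] {n : ℕ} {B : Ideal R} {y f : ℕ → R}
    (hy : ∀ i < n, NZ (P B y i) (y i)) (hf : ∀ i < n + 1, NZ (P B f i) (f i)) {u : R}
    (hu : u ∉ P B y n) : ∃ i < n + 1, f i * u ∉ P B y n := by
  by_contra hcon
  push Not at hcon
  let a : Ideal R := Submodule.comap (LinearMap.mulRight R u) (P B y n)
  have ha : ∀ x, x ∈ a ↔ x * u ∈ P B y n := fun x => Iff.rfl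
  have h1 : Soc a (P B f n) := by
    refine soc_exchange n B y f ?_ hy ?_ (fun i hi => hf i (by omega)) ⟨u, hu, fun x hx => hx⟩
    · intro i hi
      rw [ha]
      apply Ideal.mul_mem_right
      exact P_mono B y (Nat.succ_le_of_lt hi) (Ideal.mem_sup_right (Ideal.mem_span_singleton_self _))
    · intro i hi
      exact hcon i (by omega)
  obtain ⟨v, hv, hav⟩ := h1
  exact hv (hf n (Nat.lt_succ_self n) v (hav (f n) (hcon n (Nat.lt_succ_self n))))

end Pool.Agent.Helper47K9.SM
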