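import Pool.Agent.Helper47K9.SM.Seq
import Pool.Agent.TH130.CI.Main

/-!
Lower bounds for the graded pieces of a principal ideal of an Artinian complete intersection; upper
bounds for an element killed by a power of a linear form of maximal rank.
-/

set_option autoImplicit false

open MvPolynomial
open Pool.Agent.W515.SLP (lin)
open H503R3.QCI (Homog NZD Reg cip HS HS_ci homog_span)
open TH130CI

namespace Pool.Agent.Helper47K9.SM

variable {K : Type*} [Field K] {n : ℕ}

lemma finrank_AA_ci {f : Fin n → MvPolynomial (Fin n) K} {e : Fin n → ℕ}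
    (hf : ∀ i, (f i).IsHomogeneous (e i)) (hreg : Reg f) (p : ℕ) :
    (Module.finrank K (AA (Ideal.span (Set.range f)) p) : ℤ) = (cip e).coeff p := by
  have h3 := congrArg (PowerSeries.coeff p) (HS_ci f e hf hreg)
  rw [HS, PowerSeries.coeff_mk, Polynomial.coeff_coe] at h3
  have h4 := finrank_AA (I := Ideal.span (Set.range f)) p
  omega

lemma finrank_AA_mono {J J' : Ideal (MvPolynomial (Fin n) K)} (h : J ≤ J') (p : ℕ) :
    Module.finrank K (AA J' p) ≤ Module.finrank K (AA J p) := by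
  have h1 : AA J' p = (AA J p).map (Ideal.Quotient.factorₐ K h).toLinearMap := by
    ext x
    rw [mem_AA, Submodule.mem_map]
    constructor
    · rintro ⟨g, hg, rfl⟩
      exact ⟨Ideal.Quotient.mk J g, mem_AA.mpr ⟨g, hg, rfl⟩, rfl⟩
    · rintro ⟨y, hy, rfl⟩
      obtain ⟨g, hg, rfl⟩ := mem_AA.mp hy
      exact ⟨g, hg, rfl⟩
  rw [h1]
  exact Submodule.finrank_map_le _ _

/-- the graded pieces of the ideal generated by `g` -/
lemma finrank_mul {I : Ideal (MvPolynomial (Fin n) K)} (hI : Homog I) {g : MvPolynomial (Fin n) K}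
    {i : ℕ} (hg : g.IsHomogeneous i) (M : ℕ) :
    Module.finrank K (AA I (i + M)) ≤ Module.finrank K (AA (I ⊔ Ideal.span {g}) (i + M)) +
      Module.finrank K ((AA I M).map (LinearMap.mulRight K (Ideal.Quotient.mk I g))) := by
  have hle : I ≤ I ⊔ Ideal.span {g} := le_sup_left
  let T : AA I (i + M) →ₗ[K] (MvPolynomial (Fin n) K ⧸ (I ⊔ Ideal.span {g})) :=
    (Ideal.Quotient.factorₐ K hle).toLinearMap ∘ₗ (AA I (i + M)).subtype
  have h1 := LinearMap.finrank_range_add_finrank_ker T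
  have h2 : LinearMap.range T ≤ AA (I ⊔ Ideal.span {g}) (i + M) := by
    rintro _ ⟨y, rfl⟩
    obtain ⟨x, hx, hxy⟩ := mem_AA.mp y.2
    refine mem_AA.mpr ⟨x, hx, ?_⟩
    change _ = (Ideal.Quotient.factorₐ K hle) (y : MvPolynomial (Fin n) K ⧸ I)
    rw [← hxy]
    rfl
  have h3 : (LinearMap.ker T).map (AA I (i + M)).subtype ≤
      (AA I M).map (LinearMap.mulRight K (Ideal.Quotient.mk I g)) := by
    rintro _ ⟨y, hy, rfl⟩
    obtain ⟨x, hx, hxy⟩ := mem_AA.mp y.2
    have hx2 : x ∈ I ⊔ Ideal.span {g} := by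
      have h4 : (Ideal.Quotient.factorₐ K hle) (y : MvPolynomial (Fin n) K ⧸ I) = 0 := hy
      rw [← hxy] at h4
      exact Ideal.Quotient.eq_zero_iff_mem.mp h4
    change (y : MvPolynomial (Fin n) K ⧸ I) ∈ _
    rw [← hxy]
    rcases sup_comp' hI hg hx hx2 with ⟨-, b, hb, hxb⟩ | hxI
    · rw [Nat.add_sub_cancel_left] at hb
      refine ⟨Ideal.Quotient.mk I b, mem_AA.mpr ⟨b, hb, rfl⟩, ?_⟩
      change Ideal.Quotient.mk I b * Ideal.Quotient.mk I g = Ideal.Quotient.mk I x
      rw [← map_mul, Ideal.Quotient.eq, mul_comm b g]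
      rw [← neg_sub]
      exact I.neg_mem hxb
    · rw [Ideal.Quotient.eq_zero_iff_mem.mpr hxI]
      exact Submodule.zero_mem _
  have h4 := Submodule.finrank_mono h2
  have h5 := Submodule.finrank_mono h3
  rw [H503R3.QCI.finrank_map_of_inj _ (Submodule.injective_subtype _)] at h5
  omega

/-- the difference of the Hilbert functions -/
lemma cip_sub {m : ℕ} {d : Fin (m + 1) → ℕ} {i : ℕ} (hi : i ≤ d 0) (M : ℕ) :
    (cip (Fin.cons (α := fun _ => ℕ) (d 0 - i) (fun l => d l.succ))).coeff M +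
      (cip (Fin.cons (α := fun _ => ℕ) i (fun l => d l.succ))).coeff (i + M) =
      (cip d).coeff (i + M) := by
  have h1 : cip d = cip (Fin.cons (α := fun _ => ℕ) (d 0 - i) (fun l => d l.succ)) *
      Polynomial.X ^ i + cip (Fin.cons (α := fun _ => ℕ) i (fun l => d l.succ)) := by
    rw [cip, cip, cip, Fin.prod_univ_succ, Fin.prod_univ_succ, Fin.prod_univ_succ]
    simp only [Fin.cons_zero, Fin.cons_succ]
    have h2 : ∑ k ∈ Finset.range (d 0), (Polynomial.X : Polynomial ℤ) ^ k =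
        (∑ k ∈ Finset.range (d 0 - i), Polynomial.X ^ k) * Polynomial.X ^ i +
          ∑ k ∈ Finset.range i, Polynomial.X ^ k := by
      have h3 := Finset.sum_range_add (fun k => (Polynomial.X : Polynomial ℤ) ^ k) i (d 0 - i)
      rw [Nat.add_sub_cancel' hi] at h3
      rw [h3, add_comm, Finset.sum_mul]
      congr 1
      refine Finset.sum_congr rfl fun k _ => ?_
      rw [← pow_add, add_comm]
    rw [h2]
    ring
  rw [h1, Polynomial.coeff_add, add_comm i M, Polynomial.coeff_mul_X_pow]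

/-- **The lower bound.** -/
theorem mul_lower [Infinite K] {m : ℕ} {f : Fin (m + 1) → MvPolynomial (Fin (m + 1)) K}
    {d : Fin (m + 1) → ℕ} (hf : ∀ j, (f j).IsHomogeneous (d j)) (hd : ∀ j, 1 ≤ d j)
    (hmono : Monotone d) (hreg : Reg f) {g : MvPolynomial (Fin (m + 1)) K} {i : ℕ}
    (hg : g.IsHomogeneous i) (hg0 : g ≠ 0) (hi : i ≤ d 0) (M : ℕ) :
    (cip (Fin.cons (α := fun _ => ℕ) (d 0 - i) (fun l => d l.succ))).coeff M ≤
      (Module.finrank K ((AA (Ideal.span (Set.range f)) M).map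
        (LinearMap.mulRight K (Ideal.Quotient.mk (Ideal.span (Set.range f)) g))) : ℤ) := by
  have hI : Homog (Ideal.span (Set.range f)) :=
    homog_span (by rintro _ ⟨j, rfl⟩; exact ⟨d j, hf j⟩)
  obtain ⟨h, hh, hhr, hle⟩ := exists_reg hf hd hmono hreg hg hg0
  have h1 := finrank_mul hI hg M
  have h2 := finrank_AA_mono hle (i + M)
  have h3 := finrank_AA_ci hh hhr (i + M)
  have h4 := finrank_AA_ci hf hreg (i + M)
  have h5 := cip_sub (d := d) hi M
  omega

/-- **The upper bound.** -/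
theorem mul_upper [CharZero K] {I : Ideal (MvPolynomial (Fin n) K)}
    (hfI : Module.Finite K (MvPolynomial (Fin n) K ⧸ I)) {i k : ℕ} (hk : 1 ≤ k)
    {q : Fin n → K}
    (hq : ∀ q' : Fin n → K, Module.finrank K ((AA I i).map (LinearMap.mulLeft K
      (Ideal.Quotient.mk I (lin q') ^ k))) ≤ Module.finrank K ((AA I i).map (LinearMap.mulLeft K
      (Ideal.Quotient.mk I (lin q) ^ k)))) {g : MvPolynomial (Fin n) K} (hg : g.IsHomogeneous i)
    (hgk : lin q ^ k * g ∈ I) {M : ℕ} (hM : k - 1 ≤ M) :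
    Module.finrank K ((AA I M).map (LinearMap.mulRight K (Ideal.Quotient.mk I g))) ≤
      Module.finrank K (AA I (i + (k - 1))) := by
  classical
  set w := Ideal.Quotient.mk I g with hw
  have hwk : (Ideal.Quotient.mk I (lin q)) ^ k * w = 0 := by
    rw [hw, ← map_pow, ← map_mul]
    exact Ideal.Quotient.eq_zero_iff_mem.mpr hgk
  have hwA : w ∈ AA I i := mem_AA.mpr ⟨g, hg, rfl⟩
  set Xm : Submodule K (MvPolynomial (Fin n) K ⧸ I) := (AA I (i + (k - 1))).map
    (LinearMap.mulLeft K ((Ideal.Quotient.mk I (lin q)) ^ (M - (k - 1)))) with hXm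
  have h1 : (AA I M).map (LinearMap.mulRight K w) ≤ Xm := by
    rintro _ ⟨x, hx, rfl⟩
    obtain ⟨h, hh, rfl⟩ := mem_AA.mp hx
    let Wc : Submodule K (MvPolynomial (Fin n) K) :=
      Xm.comap ((LinearMap.mulRight K w) ∘ₗ (Ideal.Quotient.mkₐ K I).toLinearMap)
    have h2 : ∀ q' : Fin n → K, (lin q' ^ M : MvPolynomial (Fin n) K) ∈ Wc := by
      intro q'
      change Ideal.Quotient.mk I (lin q' ^ M) * w ∈ Xm
      rw [map_pow]
      refine lift_mem (V := AA I i) hk hM ?_ ?_ hwA hwk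
      · rintro v hv a b hab
        obtain ⟨v', hv', rfl⟩ := mem_AA.mp hv
        rw [← map_pow, ← map_pow, ← map_mul, ← map_mul]
        refine mem_AA.mpr ⟨_, ?_, rfl⟩
        have := (((lin_homog q).pow a).mul ((lin_homog q').pow b)).mul hv'
        rwa [show 1 * a + 1 * b + i = i + (k - 1) by omega] at this
      · refine Set.Finite.subset Set.finite_empty ?_
        intro t ht
        have h3 := hq (q + t • q')
        rw [lin_add_smul, map_add] at h3
        exact absurd ht (not_lt.mpr h3)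
    exact pow_span h2 hh
  exact (Submodule.finrank_mono h1).trans (Submodule.finrank_map_le _ _)

lemma exists_max_rank (I : Ideal (MvPolynomial (Fin n) K)) (i k : ℕ) :
    ∃ q : Fin n → K, ∀ q' : Fin n → K, Module.finrank K ((AA I i).map (LinearMap.mulLeft K
      (Ideal.Quotient.mk I (lin q') ^ k))) ≤ Module.finrank K ((AA I i).map (LinearMap.mulLeft K
      (Ideal.Quotient.mk I (lin q) ^ k))) := by
  have hbdd : BddAbove (Set.range fun q : Fin n → K => Module.finrank K ((AA I i).map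
      (LinearMap.mulLeft K (Ideal.Quotient.mk I (lin q) ^ k)))) :=
    ⟨Module.finrank K (AA I i), by rintro _ ⟨q, rfl⟩; exact Submodule.finrank_map_le _ _⟩
  obtain ⟨q, hq⟩ := Nat.sSup_mem (Set.range_nonempty _) hbdd
  refine ⟨q, fun q' => ?_⟩
  have h1 := le_csSup hbdd ⟨q', rfl⟩
  rw [← hq] at h1
  exact h1

/-- **A single pair.** -/
theorem exists_inj [CharZero K] {m : ℕ} {f : Fin (m + 1) → MvPolynomial (Fin (m + 1)) K}
    {d : Fin (m + 1) → ℕ} (hf : ∀ j, (f j).IsHomogeneous (d j)) (hd : ∀ j, 1 ≤ d j)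
    (hmono : Monotone d) (hreg : Reg f) {i k M : ℕ} (hi : i ≤ d 0) (hM : k - 1 ≤ M)
    (hlt : (cip d).coeff (i + (k - 1)) <
      (cip (Fin.cons (α := fun _ => ℕ) (d 0 - i) (fun l => d l.succ))).coeff M) :
    ∃ q : Fin (m + 1) → K, ∀ g : MvPolynomial (Fin (m + 1)) K, g.IsHomogeneous i →
      lin q ^ k * g ∈ Ideal.span (Set.range f) → g ∈ Ideal.span (Set.range f) := by
  obtain ⟨q, hq⟩ := exists_max_rank (Ideal.span (Set.range f)) i k
  refine ⟨q, fun g hg hgk => ?_⟩
  rcases Nat.eq_zero_or_pos k with hk | hk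
  · subst hk
    rwa [pow_zero, one_mul] at hgk
  by_contra hgI
  have hg0 : g ≠ 0 := by
    rintro rfl
    exact hgI (Ideal.zero_mem _)
  have h1 := mul_upper (finite_of_top (H503R3.QCI.isSocleDegree_ci f d hf hd hreg).2) hk hq hg hgk hM
  have h2 := mul_lower hf hd hmono hreg hg hg0 hi M
  have h3 := finrank_AA_ci hf hreg (i + (k - 1))
  omega

end Pool.Agent.Helper47K9.SM
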