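import Pool.Agent.Helper47K9.SM.Grade
import Pool.Agent.TH130.CI.Len2

/-!
Replacing the form of smallest degree of a regular sequence by an arbitrary nonzero form.
-/

set_option autoImplicit false

open MvPolynomial
open H503R3.QCI (Homog NZD Reg)
open TH130CI

namespace Pool.Agent.Helper47K9.SM

variable {K : Type*} [Field K] {n : ℕ}

/-- a nonzerodivisor in a space of forms which is contained in no associated prime -/
lemma exists_form_nz [Infinite K] {J : Ideal (MvPolynomial (Fin n) K)}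
    {W : Submodule K (MvPolynomial (Fin n) K)}
    (h : ∀ p ∈ associatedPrimes (MvPolynomial (Fin n) K) (MvPolynomial (Fin n) K ⧸ J),
      ∃ w ∈ W, w ∉ p) : ∃ w ∈ W, NZ J w := by
  classical
  have hfin := associatedPrimes.finite (MvPolynomial (Fin n) K) (MvPolynomial (Fin n) K ⧸ J)
  let Vp : Ideal (MvPolynomial (Fin n) K) → Submodule K W :=
    fun p => (p.restrictScalars K).comap W.subtype
  let s : Finset (Submodule K W) := hfin.toFinset.image Vp
  have hs : (⊤ : Submodule K W) ∉ s := by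
    intro htop
    obtain ⟨p, hp, hpt⟩ := Finset.mem_image.mp htop
    rw [Set.Finite.mem_toFinset] at hp
    obtain ⟨w, hw, hwp⟩ := h p hp
    apply hwp
    have h1 : (⟨w, hw⟩ : W) ∈ Vp p := by rw [hpt]; exact Submodule.mem_top
    exact h1
  have hne := Subspace.biUnion_ne_univ_of_top_notMem hs
  obtain ⟨w, hw⟩ := (Set.ne_univ_iff_exists_notMem _).mp hne
  refine ⟨w, w.2, nz_iff.mpr fun p hp hwp => hw ?_⟩
  refine Set.mem_biUnion (x := Vp p) ?_ hwp
  exact Finset.mem_coe.mpr (Finset.mem_image.mpr ⟨p, (Set.Finite.mem_toFinset _).mpr hp, rfl⟩)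

/-- a form of positive degree lies in every prime containing the variables -/
lemma mem_of_X {p : Ideal (MvPolynomial (Fin n) K)} (hX : ∀ i, (X i : MvPolynomial (Fin n) K) ∈ p)
    {f : MvPolynomial (Fin n) K} {d : ℕ} (hf : f.IsHomogeneous d) (hd : 1 ≤ d) : f ∈ p := by
  classical
  rw [f.as_sum]
  refine p.sum_mem fun a ha => ?_
  have hadeg : a.degree = d := by
    by_contra hne
    exact (mem_support_iff.1 ha) (hf.coeff_eq_zero hne)
  have hane : a ≠ 0 := by rintro rfl; simp at hadeg; omega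
  obtain ⟨i, hi⟩ := Finsupp.ne_iff.mp hane
  rw [Finsupp.coe_zero, Pi.zero_apply] at hi
  have hle1 : Finsupp.single i 1 ≤ a := by
    rw [Finsupp.single_le_iff]; omega
  have h4 : monomial a (coeff a f) = monomial (a - Finsupp.single i 1) (coeff a f) * X i := by
    rw [X, monomial_mul, mul_one, tsub_add_cancel_of_le hle1]
  rw [h4]
  exact p.mul_mem_left _ (hX i)

lemma mem_P {R : Type*} [CommRing R] (y : ℕ → R) {i j : ℕ} (h : i < j) : y i ∈ P ⊥ y j :=
  P_mono ⊥ y (Nat.succ_le_of_lt h) (Ideal.mem_sup_right (Ideal.mem_span_singleton_self _))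

/-- extending a regular sequence of length `m` by a form in the ideal of a regular sequence of
length `m + 1` -/
theorem exists_step [Infinite K] {F y : ℕ → MvPolynomial (Fin n) K} {D : ℕ → ℕ} {m : ℕ}
    (hF : ∀ j < m + 1, (F j).IsHomogeneous (D j)) (hD1 : ∀ j < m + 1, 1 ≤ D j)
    (hD : ∀ j < m + 1, D j ≤ D m)
    (hFreg : ∀ j < m + 1, NZ (P ⊥ F j) (F j)) (hy : ∀ j < m, NZ (P ⊥ y j) (y j)) :
    ∃ h ∈ P ⊥ F (m + 1), h.IsHomogeneous (D m) ∧ NZ (P ⊥ y m) h := by
  classical
  let W : Submodule K (MvPolynomial (Fin n) K) :=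
    (P ⊥ F (m + 1)).restrictScalars K ⊓ homogeneousSubmodule (Fin n) K (D m)
  have hW : ∀ p ∈ associatedPrimes (MvPolynomial (Fin n) K)
      (MvPolynomial (Fin n) K ⧸ P ⊥ y m), ∃ w ∈ W, w ∉ p := by
    intro p hp
    by_contra hcon
    push Not at hcon
    obtain ⟨hpp, x, hx⟩ := isAssociatedPrime_iff.mp hp
    obtain ⟨u, rfl⟩ := Ideal.Quotient.mk_surjective x
    have hpu : ∀ r, r ∈ p ↔ r * u ∈ P ⊥ y m := by
      intro r
      rw [hx, Submodule.mem_colon_singleton, Submodule.mem_bot]
      have h2 : r • Ideal.Quotient.mk (P ⊥ y m) u = Ideal.Quotient.mk (P ⊥ y m) (r * u) := rfl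
      rw [h2, Ideal.Quotient.eq_zero_iff_mem]
    have hu : u ∉ P ⊥ y m := by
      intro hu
      apply hpp.ne_top
      rw [Ideal.eq_top_iff_one, hpu, one_mul]
      exact hu
    have hall : ∀ j < m + 1, F j ∈ p := by
      intro j hj
      by_contra hFj
      have hX : ∀ v, (X v : MvPolynomial (Fin n) K) ∈ p := by
        intro v
        have h1 : F j * X v ^ (D m - D j) ∈ W := by
          refine ⟨Ideal.mul_mem_right _ _ (mem_P F hj), ?_⟩
          have := (hF j hj).mul (isHomogeneous_X_pow (R := K) v (D m - D j))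
          rwa [Nat.add_sub_cancel' (hD j hj)] at this
        have h2 := hcon _ h1
        rcases hpp.mem_or_mem h2 with h3 | h3
        · exact absurd h3 hFj
        · exact hpp.mem_of_pow_mem _ h3
      exact hFj (mem_of_X hX (hF j hj) (hD1 j hj))
    obtain ⟨j, hj, hju⟩ := grade_le (B := ⊥) hy hFreg hu
    exact hju ((hpu _).mp (hall j hj))
  obtain ⟨w, hw, hnz⟩ := exists_form_nz hW
  exact ⟨w, hw.1, hw.2, hnz⟩

/-- the whole sequence -/
theorem exists_seq [Infinite K] {F : ℕ → MvPolynomial (Fin n) K} {D : ℕ → ℕ}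
    {g : MvPolynomial (Fin n) K} (hg0 : g ≠ 0) (m : ℕ)
    (hF : ∀ j < m + 1, (F j).IsHomogeneous (D j)) (hD1 : ∀ j < m + 1, 1 ≤ D j)
    (hD : ∀ i j, i ≤ j → j < m + 1 → D i ≤ D j)
    (hFreg : ∀ j < m + 1, NZ (P ⊥ F j) (F j)) :
    ∃ y : ℕ → MvPolynomial (Fin n) K, y 0 = g ∧
      (∀ j, 1 ≤ j → j < m + 1 → (y j).IsHomogeneous (D j) ∧ y j ∈ P ⊥ F (j + 1)) ∧
      ∀ j < m + 1, NZ (P ⊥ y j) (y j) := by
  classical
  induction m with
  | zero =>
    refine ⟨fun _ => g, rfl, fun j h1 h2 => by omega, fun j hj => ?_⟩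
    have hj0 : j = 0 := by omega
    subst hj0
    intro x hx
    have hx' : g * x ∈ (⊥ : Ideal (MvPolynomial (Fin n) K)) := hx
    rw [Ideal.mem_bot] at hx'
    have : x = 0 := (mul_eq_zero.mp hx').resolve_left hg0
    rw [this]
    exact Ideal.zero_mem _
  | succ m ih =>
    obtain ⟨y, hy0, hy1, hy2⟩ := ih (fun j hj => hF j (by omega)) (fun j hj => hD1 j (by omega))
      (fun i j hij hj => hD i j hij (by omega)) (fun j hj => hFreg j (by omega))
    obtain ⟨h, hh, hhh, hnz⟩ := exists_step (y := y) (m := m + 1) hF hD1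
      (fun j hj => hD j (m + 1) (by omega) (Nat.lt_succ_self _)) hFreg hy2
    have hP : ∀ j ≤ m + 1, P ⊥ (Function.update y (m + 1) h) j = P ⊥ y j := by
      intro j hj
      apply P_congr
      intro i hi
      rw [Function.update_of_ne (by omega)]
    refine ⟨Function.update y (m + 1) h, ?_, ?_, ?_⟩
    · rw [Function.update_of_ne (by omega), hy0]
    · intro j h1 h2
      by_cases hj : j = m + 1
      · subst hj
        rw [Function.update_self]
        exact ⟨hhh, hh⟩
      · rw [Function.update_of_ne hj]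
        exact hy1 j h1 (by omega)
    · intro j hj
      rw [hP j (by omega)]
      by_cases hj' : j = m + 1
      · subst hj'
        rw [Function.update_self]
        exact hnz
      · rw [Function.update_of_ne hj']
        exact hy2 j (by omega)

lemma P_eq_span {R : Type*} [CommRing R] (y : ℕ → R) (m : ℕ) :
    P ⊥ y m = Ideal.span (y '' {j | j < m}) := by
  induction m with
  | zero => simp [P]
  | succ m ih =>
    rw [P, ih, ← Ideal.span_union]
    congr 1
    ext x
    simp only [Set.mem_union, Set.mem_image, Set.mem_ofPred_eq, Set.mem_singleton_iff]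
    constructor
    · rintro (⟨j, hj, rfl⟩ | rfl)
      · exact ⟨j, by omega, rfl⟩
      · exact ⟨m, by omega, rfl⟩
    · rintro ⟨j, hj, rfl⟩
      by_cases h : j = m
      · right; rw [h]
      · left; exact ⟨j, by omega, rfl⟩

lemma span_fin {R : Type*} [CommRing R] {m : ℕ} {f : Fin m → R} {y : ℕ → R}
    (h : ∀ j : Fin m, y j = f j) (i : Fin m) :
    Ideal.span (f '' {j | j < i}) = P ⊥ y i := by
  rw [P_eq_span]
  congr 1
  ext x
  simp only [Set.mem_image, Set.mem_ofPred_eq]
  constructor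
  · rintro ⟨j, hj, rfl⟩
    exact ⟨j, hj, h j⟩
  · rintro ⟨j, hj, rfl⟩
    exact ⟨⟨j, by have := i.2; omega⟩, Fin.lt_def.mpr hj, (h _).symm⟩

/-- **Replacing the form of smallest degree.** -/
theorem exists_reg [Infinite K] {m : ℕ} {f : Fin (m + 1) → MvPolynomial (Fin n) K}
    {d : Fin (m + 1) → ℕ} (hf : ∀ j, (f j).IsHomogeneous (d j)) (hd : ∀ j, 1 ≤ d j)
    (hmono : Monotone d) (hreg : Reg f) {g : MvPolynomial (Fin n) K} {i : ℕ}
    (hg : g.IsHomogeneous i) (hg0 : g ≠ 0) :
    ∃ h : Fin (m + 1) → MvPolynomial (Fin n) K,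
      (∀ j, (h j).IsHomogeneous (Fin.cons (α := fun _ => ℕ) i (fun l => d l.succ) j)) ∧ Reg h ∧
      Ideal.span (Set.range h) ≤ Ideal.span (Set.range f) ⊔ Ideal.span {g} := by
  classical
  let F : ℕ → MvPolynomial (Fin n) K := fun j => if h : j < m + 1 then f ⟨j, h⟩ else 0
  let D : ℕ → ℕ := fun j => if h : j < m + 1 then d ⟨j, h⟩ else 0
  have hFf : ∀ j : Fin (m + 1), F j = f j := by
    intro j
    simp only [F]
    rw [dif_pos j.2]
  have hDd : ∀ j : Fin (m + 1), D j = d j := by
    intro j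
    simp only [D]
    rw [dif_pos j.2]
  obtain ⟨y, hy0, hy1, hy2⟩ := exists_seq (F := F) (D := D) hg0 m
    (fun j hj => by have := hf ⟨j, hj⟩; rwa [← hFf, ← hDd] at this)
    (fun j hj => by have := hd ⟨j, hj⟩; rwa [← hDd] at this)
    (fun a b hab hb => by
      have := hmono (show (⟨a, by omega⟩ : Fin (m + 1)) ≤ ⟨b, hb⟩ from hab)
      rwa [← hDd, ← hDd] at this)
    (fun j hj => by
      have h1 := hreg ⟨j, hj⟩
      rw [span_fin hFf, ← hFf] at h1
      exact h1)
  refine ⟨fun j => y j, ?_, ?_, ?_⟩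
  · intro j
    refine Fin.cases ?_ (fun l => ?_) j
    · rw [Fin.cons_zero]
      change (y 0).IsHomogeneous i
      rw [hy0]
      exact hg
    · rw [Fin.cons_succ]
      have h1 := (hy1 (l.1 + 1) (by omega) (by have := l.2; omega)).1
      have h2 := hDd l.succ
      rw [Fin.val_succ] at h2
      rw [h2] at h1
      exact h1
  · intro j
    rw [span_fin (y := y) (fun _ => rfl)]
    exact hy2 j j.2
  · rw [Ideal.span_le]
    rintro _ ⟨j, rfl⟩
    refine Fin.cases ?_ (fun l => ?_) j
    · change y 0 ∈ _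
      rw [hy0]
      exact Ideal.mem_sup_right (Ideal.mem_span_singleton_self _)
    · have h1 := (hy1 (l.1 + 1) (by omega) (by have := l.2; omega)).2
      refine Ideal.mem_sup_left ?_
      refine P_le bot_le ?_ h1
      intro a ha
      have ha' : a < m + 1 := by have := l.2; omega
      have := hFf ⟨a, ha'⟩
      change F a = _ at this
      rw [this]
      exact Ideal.subset_span ⟨_, rfl⟩

end Pool.Agent.Helper47K9.SM
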